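import Pool.Agent.Helper99.LZ.Bridge

/-! # Assembly of the two classes (packet MT-BR5, MP_2b0227_gt) -/

set_option autoImplicit false

open Finset Filter Topology

namespace Pool.Agent.Helper35.LZ

open Pool.Agent.Helper99.LZ
open Pool.Agent.Helper52.C2 (Tg Fam Dir pre)

theorem pre_lo {f : LaurentPolynomial ℝ} {a k : ℤ} (ha : ∀ i ∈ f.coeff.support, a ≤ i)
    (hk : k < a) : pre f k = 0 := by
  unfold pre
  refine sum_eq_zero fun i hi => if_neg ?_
  have := ha i hi
  omega

theorem pre_hi {f : LaurentPolynomial ℝ} {b k : ℤ} (hb : ∀ i ∈ f.coeff.support, i ≤ b)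
    (hk : b ≤ k) : pre f k = pre f b := by
  unfold pre
  refine sum_congr rfl fun i hi => ?_
  have := hb i hi
  rw [if_pos (by omega), if_pos this]

theorem pre_sub (f : LaurentPolynomial ℝ) (k : ℤ) : pre f k - pre f (k - 1) = f.coeff k := by
  unfold pre
  rw [← sum_sub_distrib]
  have h1 : ∀ i ∈ f.coeff.support, ((if i ≤ k then f.coeff i else 0) -
      if i ≤ k - 1 then f.coeff i else 0) = if i = k then f.coeff k else 0 := by
    intro i _
    rcases lt_trichotomy i k with h | h | h
    · rw [if_pos (by omega), if_pos (by omega), if_neg (by omega), sub_self]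
    · rw [if_pos (by omega), if_neg (by omega), if_pos h, sub_zero, h]
    · rw [if_neg (by omega), if_neg (by omega), if_neg (by omega), sub_self]
  rw [sum_congr rfl h1, sum_ite_eq']
  split_ifs with h
  · rfl
  · exact (Finsupp.notMem_support_iff.1 h).symm

theorem pre_mono {f : LaurentPolynomial ℝ} (hf : ∀ i, 0 ≤ f.coeff i) {k l : ℤ} (h : k ≤ l) :
    pre f k ≤ pre f l := by
  unfold pre
  refine sum_le_sum fun i _ => ?_
  by_cases h1 : i ≤ k
  · rw [if_pos h1, if_pos (by omega)]
  · rw [if_neg h1]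
    split_ifs
    · exact hf i
    · exact le_rfl

section fam
variable {E : Type} [Fintype E] [DecidableEq E] (A : Fam E)

theorem pr_P (p : ℤ) : (famCtx A).pr.P p = pre A.S.L p := by
  show (∑ a, cP A p a • (LinearMap.proj a : (Dir E → ℝ) →ₗ[ℝ] ℝ)) (Pi.single Dir.Y 1) = _
  rw [LinearMap.sum_apply]
  simp only [LinearMap.smul_apply, LinearMap.proj_apply, smul_eq_mul]
  rw [sum_eq_single Dir.Y]
  · rw [Pi.single_eq_same, mul_one]
    rfl
  · intro b _ hb
    rw [Pi.single_eq_of_ne hb, mul_zero]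
  · intro h
    exact absurd (mem_univ _) h

theorem pr_Q (q : ℤ) : (famCtx A).pr.Q q = pre A.S.R q := by
  show (∑ a, cQ A q a • (LinearMap.proj a : (Dir E → ℝ) →ₗ[ℝ] ℝ)) (Pi.single Dir.X 1) = _
  rw [LinearMap.sum_apply]
  simp only [LinearMap.smul_apply, LinearMap.proj_apply, smul_eq_mul]
  rw [sum_eq_single Dir.X]
  · rw [Pi.single_eq_same, mul_one]
    rfl
  · intro b _ hb
    rw [Pi.single_eq_of_ne hb, mul_zero]
  · intro h
    exact absurd (mem_univ _) h

end fam

/-- log-concavity of the cumulative function, from the levels -/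
theorem lev_lc {V : Type} [AddCommGroup V] [Module ℝ V] (S : Ctx V) (hR : S.Rel) (p q : ℤ)
    (hqp : q ≤ p) (h : OnePos (S.full p q)) (hpos : 0 < S.pr.H (p + 2) q) :
    S.pr.H (p + 2) q * S.pr.H p q ≤ S.pr.H (p + 1) q ^ 2 := by
  have e1 : S.full p q (S.X, 0) (S.X, 0) = S.pr.H (p + 2) q := by
    show S.D p q S.X S.X + 0 * (S.P p S.X - S.Q q S.X) + 0 * (S.P p S.X - S.Q q S.X) +
      0 * 0 * S.g p q = S.P (p + 2) S.Y - S.Q q S.X
    rw [hR.DX, hR.PX, show p + 1 + 1 = p + 2 by ring]
    ring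
  have e2 : S.full p q (0, 1) (0, 1) = S.pr.H p q := by
    show S.D p q 0 0 + 1 * (S.P p 0 - S.Q q 0) + 1 * (S.P p 0 - S.Q q 0) +
      1 * 1 * S.g p q = S.pr.H p q
    have hg : S.g p q = S.pr.H p q := if_pos hqp
    rw [hg]
    simp
  have e3 : S.full p q (S.X, 0) (0, 1) = S.pr.H (p + 1) q := by
    show S.D p q S.X 0 + 0 * (S.P p 0 - S.Q q 0) + 1 * (S.P p S.X - S.Q q S.X) +
      0 * 1 * S.g p q = S.P (p + 1) S.Y - S.Q q S.X
    rw [hR.PX]
    simp
  have h1 := h (S.X, 0) (0, 1)
  rw [e1, e2, e3] at h1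
  exact h1 hpos

theorem brf (h1 : StmtBRR) (h2 : StmtBRL) (h3 : StmtBRG) (h4 : StmtBRD) : StmtBRF := by
  intro E _ _ A hA
  have hrel := h1 E A hA
  have hlev := h2 E A hA
  have hzer := h4 E A hA
  have hFLR : A.S.F = 0 → A.S.L = A.S.R := by
    intro h
    have h5 := A.S.rel
    rw [h, zero_mul] at h5
    exact (sub_eq_zero.1 h5.symm)
  refine ⟨fun hF => ?_, fun hF hL => ?_, fun hF hL p q hpq => ?_⟩
  · obtain ⟨a, b, hab⟩ := h3 E A hA hF
    refine ⟨a, b, { hrel with reg := hab, lev2 := hlev.1, lev := hlev.2, zer2 := ?_, zer := ?_ }⟩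
    · intro q h5 h6 h7
      refine LinearMap.ext fun u => LinearMap.ext fun v => ?_
      rw [hzer.1 q h6 h7, h5]
      simp
    · intro p q h5 h6 h7 h8
      refine LinearMap.ext fun u => LinearMap.ext fun v => ?_
      rw [hzer.2 p q h5 h7 h8, h6]
      simp
  · have hLR := hFLR hF
    have hL0 : ∀ i, 0 ≤ A.S.L.coeff i := hA.nonneg.L
    have hFz : ∀ k, (famCtx A).pr.F k = 0 := by
      intro k
      show (famCtx A).pr.P k - (famCtx A).pr.Q k = 0
      rw [pr_P, pr_Q, hLR, sub_self]
    have hLc : ∀ k, (famCtx A).pr.L k = A.S.L.coeff k := by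
      intro k
      show (famCtx A).pr.P k - (famCtx A).pr.P (k - 1) = _
      rw [pr_P, pr_P, pre_sub]
    have hne : A.S.L.coeff.support.Nonempty := by
      rw [Finsupp.support_nonempty_iff]
      intro h5
      apply hL
      exact AddMonoidAlgebra.coeff_injective h5
    obtain ⟨a, ha⟩ : ∃ a, a = A.S.L.coeff.support.min' hne := ⟨_, rfl⟩
    obtain ⟨b, hb⟩ : ∃ b, b = A.S.L.coeff.support.max' hne := ⟨_, rfl⟩
    have ha1 : ∀ i ∈ A.S.L.coeff.support, a ≤ i := fun i hi => ha ▸ min'_le _ i hi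
    have hb1 : ∀ i ∈ A.S.L.coeff.support, i ≤ b := fun i hi => hb ▸ le_max' _ i hi
    have ha2 : a ∈ A.S.L.coeff.support := ha ▸ min'_mem _ hne
    have hb2 : b ∈ A.S.L.coeff.support := hb ▸ max'_mem _ hne
    have ha3 : 0 < A.S.L.coeff a := lt_of_le_of_ne (hL0 a) (Ne.symm (Finsupp.mem_support_iff.1 ha2))
    have hb3 : 0 < A.S.L.coeff b := lt_of_le_of_ne (hL0 b) (Ne.symm (Finsupp.mem_support_iff.1 hb2))
    have hstep : ∀ k, 0 < pre A.S.L k → A.S.L.coeff (k + 1) = 0 → A.S.L.coeff (k + 2) = 0 := by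
      intro k hk hk1
      obtain ⟨q, hq1, hq2⟩ : ∃ q, q ≤ k ∧ q < a := ⟨min k (a - 1), min_le_left _ _, by
        have := min_le_right k (a - 1)
        omega⟩
      have hQ : (famCtx A).pr.Q q = 0 := by
        rw [pr_Q, ← hLR]
        exact pre_lo ha1 hq2
      have hH : ∀ p, (famCtx A).pr.H p q = pre A.S.L p := by
        intro p
        show (famCtx A).pr.P p - (famCtx A).pr.Q q = _
        rw [hQ, pr_P, sub_zero]
      have h5 := lev_lc (famCtx A) hrel k q hq1 (hlev.2 k q (by omega)) (by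
        rw [hH]
        exact lt_of_lt_of_le hk (pre_mono hL0 (by omega)))
      rw [hH, hH, hH] at h5
      have e1 := pre_sub A.S.L (k + 1)
      have e2 := pre_sub A.S.L (k + 2)
      rw [show k + 1 - 1 = k by ring] at e1
      rw [show k + 2 - 1 = k + 1 by ring] at e2
      have h6 : pre A.S.L (k + 1) = pre A.S.L k := by linarith
      have h7 : pre A.S.L (k + 2) = pre A.S.L k + A.S.L.coeff (k + 2) := by linarith
      rw [h6, h7] at h5
      have h8 := hL0 (k + 2)
      have h9 : pre A.S.L k * A.S.L.coeff (k + 2) ≤ 0 := by nlinarith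
      nlinarith
    have hpos : ∀ k, a ≤ k → 0 < pre A.S.L k := by
      intro k hk
      have e1 := pre_sub A.S.L a
      rw [pre_lo ha1 (show a - 1 < a by omega), sub_zero] at e1
      have := pre_mono hL0 hk
      linarith
    have hzero : ∀ k, a < k → A.S.L.coeff k = 0 → ∀ j : ℕ, A.S.L.coeff (k + j) = 0 := by
      intro k hk hk0 j
      induction j with
      | zero => rw [Nat.cast_zero, add_zero]; exact hk0
      | succ j ih =>
        have h5 := hstep (k + j - 1) (hpos _ (by omega)) (by rw [sub_add_cancel]; exact ih)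
        rw [Nat.cast_add, Nat.cast_one, show k + ((j : ℤ) + 1) = k + j - 1 + 2 by ring]
        exact h5
    refine ⟨a, b, { hrel with
      ab := ha1 b hb2
      F0 := hFz
      Lpos := ?_
      lo := ?_
      hi := ?_
      lev2 := ?_
      lev := hlev.2
      szl := ?_ }⟩
    · intro k hk1 hk2
      rw [hLc]
      refine lt_of_le_of_ne (hL0 k) fun h5 => ?_
      rcases eq_or_lt_of_le hk1 with h6 | h6
      · rw [← h6] at h5
        linarith
      · have h7 := hzero k h6 h5.symm (b - k).toNat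
        rw [show k + ((b - k).toNat : ℤ) = b by omega] at h7
        linarith
    · intro k hk
      rw [pr_P]
      exact pre_lo ha1 hk
    · intro k hk
      rw [pr_P, pr_P]
      exact pre_hi hb1 hk
    · intro q
      refine LinearMap.ext fun u => LinearMap.ext fun v => ?_
      rw [hzer.1 q (hFz _) (hFz _), hFz]
      simp
    · intro p q h5 h6 h7 u v
      exact hzer.2 p q h5 h6 h7 u v
  · have hLR := hFLR hF
    have hH : ∀ p q, (famCtx A).pr.H p q = 0 := by
      intro p q
      show (famCtx A).pr.P p - (famCtx A).pr.Q q = 0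
      rw [pr_P, pr_Q, ← hLR, hL]
      simp [pre]
    refine LinearMap.ext fun u => LinearMap.ext fun v => ?_
    rcases eq_or_lt_of_le hpq with h5 | h5
    · rw [← h5, hzer.1 q (hH _ _) (hH _ _)]
      have h6 : (famCtx A).pr.F q = 0 := hH _ _
      rw [h6]
      simp
    · have h6 := hzer.2 p q (by omega) (hH _ _) (hH _ _) (u, 0) (v, 0)
      rw [hH] at h6
      have h7 : (famCtx A).full p q (u, 0) (v, 0) = (famCtx A).D p q u v := by
        show (famCtx A).D p q u v + 0 * ((famCtx A).P p v - (famCtx A).Q q v) +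
          0 * ((famCtx A).P p u - (famCtx A).Q q u) + 0 * 0 * (famCtx A).g p q = _
        ring
      rw [h7] at h6
      rw [h6]
      simp

end Pool.Agent.Helper35.LZ
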