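import Pool.Agent.Helper99.LZ.Bridge

/-! # The underlying pair of a context is in HH1 (packet MT-CP, MP_2b0227_gt) -/

set_option autoImplicit false

open Finset Filter Topology

namespace Pool.Agent.Helper35.LZ

open Pool.Agent.Helper99.LZ

/-- lowering an entry -/
theorem lower {A B D s t c : ℝ} (hc : 0 ≤ c) (ha : 0 < A - c * s ^ 2) (h : A * D ≤ B ^ 2) :
    (A - c * s ^ 2) * (D - c * t ^ 2) ≤ (B - c * s * t) ^ 2 := by
  by_contra hcon
  push Not at hcon
  have hA : 0 < A := by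
    have := mul_nonneg hc (sq_nonneg s)
    linarith
  obtain ⟨a, hae⟩ : ∃ a, a = A - c * s ^ 2 := ⟨_, rfl⟩
  obtain ⟨b, hbe⟩ : ∃ b, b = B - c * s * t := ⟨_, rfl⟩
  obtain ⟨d, hde⟩ : ∃ d, d = D - c * t ^ 2 := ⟨_, rfl⟩
  rw [← hae, ← hbe, ← hde] at hcon
  rw [← hae] at ha
  have e1 : a * B ^ 2 - 2 * b * A * B + d * A ^ 2 =
      A * (A * D - B ^ 2) - c * (s * B - A * t) ^ 2 := by
    rw [hae, hbe, hde]
    ring
  have e2 : a * (a * B ^ 2 - 2 * b * A * B + d * A ^ 2) =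
      (a * B - b * A) ^ 2 + (a * d - b ^ 2) * A ^ 2 := by ring
  have h1 : 0 < (a * d - b ^ 2) * A ^ 2 := mul_pos (by linarith) (by positivity)
  have h2 : 0 < a * (a * B ^ 2 - 2 * b * A * B + d * A ^ 2) := by
    rw [e2]
    have := sq_nonneg (a * B - b * A)
    linarith
  have h3 : 0 < a * B ^ 2 - 2 * b * A * B + d * A ^ 2 := (mul_pos_iff_of_pos_left ha).1 h2
  rw [e1] at h3
  have h4 : A * (A * D - B ^ 2) ≤ 0 := mul_nonpos_of_nonneg_of_nonpos hA.le (by linarith)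
  have h5 := mul_nonneg hc (sq_nonneg (s * B - A * t))
  linarith

section
variable {V : Type} [AddCommGroup V] [Module ℝ V] (S : Ctx V)

theorem D_XX (hR : S.Rel) (p q : ℤ) : S.D p q S.X S.X = S.pr.H (p + 2) q := by
  show _ = S.P (p + 2) S.Y - S.Q q S.X
  rw [hR.DX, hR.PX, show p + 1 + 1 = p + 2 by ring]

theorem D_XY (hR : S.Rel) (p q : ℤ) : S.D p q S.X S.Y = S.pr.H (p + 1) (q - 1) := by
  show _ = S.P (p + 1) S.Y - S.Q (q - 1) S.X
  rw [hR.DX, hR.QY]

theorem D_YX (hR : S.Rel) (p q : ℤ) : S.D p q S.Y S.X = S.pr.H (p + 1) (q - 1) := by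
  rw [hR.sym p q S.Y S.X, D_XY S hR]

theorem D_YY (hR : S.Rel) (p q : ℤ) : S.D p q S.Y S.Y = S.pr.H p (q - 2) := by
  show _ = S.P p S.Y - S.Q (q - 2) S.X
  rw [hR.DY, hR.QY, show q - 1 - 1 = q - 2 by ring]

theorem full_eq (hR : S.Rel) (p q : ℤ) (x y w x' y' w' : ℝ) :
    S.full p q (x • S.X + y • S.Y, w) (x' • S.X + y' • S.Y, w') =
      S.pr.W3 p q (S.g p q) x y w x' y' w' := by
  have e1 : ∀ x y : ℝ, S.P p (x • S.X + y • S.Y) - S.Q q (x • S.X + y • S.Y) =
      x * S.pr.H (p + 1) q + y * S.pr.H p (q - 1) := by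
    intro x y
    show _ = x * (S.P (p + 1) S.Y - S.Q q S.X) + y * (S.P p S.Y - S.Q (q - 1) S.X)
    rw [map_add, map_add, map_smul, map_smul, map_smul, map_smul, hR.PX, hR.QY]
    simp only [smul_eq_mul]
    ring
  have e2 : S.D p q (x • S.X + y • S.Y) (x' • S.X + y' • S.Y) =
      x * x' * S.pr.H (p + 2) q + (x * y' + y * x') * S.pr.H (p + 1) (q - 1) +
        y * y' * S.pr.H p (q - 2) := by
    simp only [map_add, LinearMap.add_apply, map_smul, LinearMap.smul_apply,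
      D_XX S hR, D_XY S hR, D_YX S hR, D_YY S hR, smul_eq_mul]
    ring
  show S.D p q (x • S.X + y • S.Y) (x' • S.X + y' • S.Y) +
    w * (S.P p (x' • S.X + y' • S.Y) - S.Q q (x' • S.X + y' • S.Y)) +
    w' * (S.P p (x • S.X + y • S.Y) - S.Q q (x • S.X + y • S.Y)) + w * w' * S.g p q = _
  rw [e1, e1, e2]
  unfold Pr.W3
  ring

end

theorem F_nonneg {T : Pr} {a b : ℤ} (h : T.Reg a b) (k : ℤ) : 0 ≤ T.F k := by
  show 0 ≤ T.P k - T.Q k
  by_cases h1 : k < a
  · obtain ⟨h2, h3⟩ := h.lo k h1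
    rw [h2, h3, sub_zero]
  · by_cases h2 : k < b
    · exact (h.Fpos k (by omega) h2).le
    · obtain ⟨h3, h4⟩ := h.hi k (by omega)
      rw [h3, h4, sub_self]

theorem cp : StmtCP := by
  intro V _ _ S a b hS
  have hR := hS.toRel
  refine { hS.reg with lc := ?_, one := ?_, nat := ?_ }
  · intro k
    rcases eq_or_lt_of_le (F_nonneg hS.reg k) with h | h
    · rw [← h, zero_mul]
      exact sq_nonneg _
    · have e1 : S.D (k - 2) k S.X S.X = S.pr.F k := by
        rw [D_XX S hR, show k - 2 + 2 = k by ring]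
        rfl
      have e2 : S.D (k - 2) k S.X S.Y = S.pr.F (k - 1) := by
        rw [D_XY S hR, show k - 2 + 1 = k - 1 by ring]
        rfl
      have e3 : S.D (k - 2) k S.Y S.Y = S.pr.F (k - 2) := by
        rw [D_YY S hR]
        rfl
      have h1 := hS.lev2 k S.X S.Y
      rw [e1, e2, e3] at h1
      exact h1 h
  · intro q x y w x' y' w' hpos
    have hg : S.g (q - 1) q = S.G q := if_neg (by omega)
    have h1 := hS.lev (q - 1) q le_rfl (x • S.X + y • S.Y, w) (x' • S.X + y' • S.Y, w')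
    rw [full_eq S hR, full_eq S hR, full_eq S hR, hg] at h1
    have hc : 0 ≤ S.G q - S.pr.hp q := by
      have : S.pr.hp q ≤ S.G q := max_le (hR.Gnn q) (hR.Gh q)
      linarith
    have e : ∀ x y w x' y' w' : ℝ, S.pr.W3 (q - 1) q (S.pr.hp q) x y w x' y' w' =
        S.pr.W3 (q - 1) q (S.G q) x y w x' y' w' - (S.G q - S.pr.hp q) * w * w' := by
      intro x y w x' y' w'
      unfold Pr.W3
      ring
    have e' : ∀ x y w : ℝ, S.pr.W3 (q - 1) q (S.pr.hp q) x y w x y w =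
        S.pr.W3 (q - 1) q (S.G q) x y w x y w - (S.G q - S.pr.hp q) * w ^ 2 := by
      intro x y w
      rw [e]
      ring
    rw [e'] at hpos
    rw [e' x y w, e' x' y' w', e x y w x' y' w']
    refine lower hc hpos (h1 ?_)
    have := mul_nonneg hc (sq_nonneg w)
    linarith
  · intro p q hqp x y w x' y' w' hpos
    have hg : S.g p q = S.pr.H p q := if_pos hqp
    have h1 := hS.lev p q (by omega) (x • S.X + y • S.Y, w) (x' • S.X + y' • S.Y, w')
    rw [full_eq S hR, full_eq S hR, full_eq S hR, hg] at h1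
    exact h1 hpos

end Pool.Agent.Helper35.LZ
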